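import Pool.Agent.H547S1.Cls

/-!
# Public-key encryption and one-way functions over sets of Boolean functions

`OwfOver B`: there is a one-way function whose output bits have circuits of polynomial size with
gates from `B`. `PkeOver B`: there is a public-key encryption scheme such that, for each public
key, the bits of the ciphertext, as functions of the message bit and the coins, have circuits of
polynomial size with gates from `B`. `OWF`, `PKE`: the same without the conditions on circuits.
`B` is an arbitrary set of Boolean functions; the constants are not given for free.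
-/

set_option autoImplicit false

namespace Pool.Agent.Results.MP_5f4f03_lc.GateSetTrichotomy

open Pool.Agent.NPC Pool.Agent.H547R6 Pool.Agent.H547R7 Pool.Agent.H547R8 Pool.Agent.H547R9
open Pool.Agent.H547S1

/-- **Trichotomy for one-way functions and public-key encryption over gate sets.** -/
theorem result (B : Set BFun) :
    ((B ⊆ Aff ∨ B ⊆ Conj ∨ B ⊆ Disj) → ¬ OwfOver B ∧ ¬ PkeOver B) ∧
    (B ⊆ Mon → ¬ B ⊆ Aff → ¬ B ⊆ Conj → ¬ B ⊆ Disj → (OwfOver B ↔ OWF) ∧ ¬ PkeOver B) ∧
    (¬ B ⊆ Mon → ¬ B ⊆ Aff → (OwfOver B ↔ OWF) ∧ (PkeOver B ↔ PKE)) := by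
  have hp := cls_pke B
  have ho := cls_owf B
  refine ⟨fun h => ⟨fun h1 => (ho.1 h1).1 h, fun h1 => (hp.1 h1).1 ?_⟩,
    fun hM hA hC hD => ⟨⟨fun h1 => (ho.1 h1).2, fun h1 => ho.2 ⟨by tauto, h1⟩⟩,
      fun h1 => (hp.1 h1).1 (Or.inl hM)⟩,
    fun hM hA => ⟨⟨fun h1 => (ho.1 h1).2, fun h1 => ho.2 ⟨?_, h1⟩⟩,
      ⟨fun h1 => (hp.1 h1).2, fun h1 => hp.2 ⟨by tauto, h1⟩⟩⟩⟩
  · rcases h with h | h | h
    · exact Or.inr h
    · exact Or.inl (h.trans conj_mon)
    · exact Or.inl (h.trans disj_mon)
  · rintro (h | h | h)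
    · exact hA h
    · exact hM (h.trans conj_mon)
    · exact hM (h.trans disj_mon)

end Pool.Agent.Results.MP_5f4f03_lc.GateSetTrichotomy
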