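import Pool.Agent.H547U4.Asm
import Pool.Agent.H547S1.T_NEG
import Pool.Agent.H547S1.T_GL3
import Pool.Agent.H547S1.T_PMO
import Pool.Agent.H547U4.T_C0
import Pool.Agent.H547U4.T_C1
import Pool.Agent.H547U4.T_C2
import Pool.Agent.H547U4.T_C3
import Pool.Agent.H547U4.T_D
import Pool.Agent.H547U4.T_E1
import Pool.Agent.H547U4.T_E3
import Pool.Agent.H547U4.T_F1
import Pool.Agent.H547U4.T_F2
import Pool.Agent.H547U4.T_G
import Pool.Agent.H547U4.T_H1
import Pool.Agent.H547U4.T_H2

/-!
# Public-key encryption needs exactly one NOT gate

`PkeNot t`: there is a public-key encryption scheme such that for each public key the whole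
ciphertext, as a function of the message bit and of the coins of the encryption, is computed by
one circuit with AND, OR and NOT gates, of size polynomial in the security parameter, with at most
`t` NOT gates (and no constants). `PKE`: there is a public-key encryption scheme.
-/

set_option autoImplicit false

namespace Pool.Agent.Results.MP_5f4f03_lc.OneNotGate

open Pool.Agent.H547S1 Pool.Agent.H547U4

/-- **Public-key encryption needs exactly one NOT gate.** -/
theorem result (t : ℕ) : PkeNot t ↔ 1 ≤ t ∧ PKE :=
  main_of t_NEG (t_PMO t_NEG t_GL3) y_H1 y_H2 y_C1 y_C2 (y_C3 y_C0) y_D y_E1 (y_E3 y_C0)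
    y_F1 y_F2 y_G t

end Pool.Agent.Results.MP_5f4f03_lc.OneNotGate
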