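import Pool.Agent.H822R2.KA.Final

set_option autoImplicit false

/-!
# No black-box construction of perfectly complete quantum key agreement (hence of perfectly correct
# public-key encryption) with classical communication from one-way functions
-/

namespace Pool.Agent.Results.MP_5f4f03_lc.QuantumKeyAgreement

open Pool.Agent.H822R2.KA

/-- Let `P k`, `k = 0, 1, …`, be protocols with `n k` classical messages, in which Alice and Bob have
quantum memories (of finite dimension) and ask at most `q k` questions each, in superposition, to the
same oracle `h : ι → Bool`. Suppose that, whatever the oracle, the keys of Alice and Bob are never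
different. Then there is a deterministic eavesdropper `Eve` who finds the common key from the
transcript, with certainty and for every oracle, with at most `q k ^ 3 * (q k + 1)` classical
questions, such that relative to the oracle and `Eve` random functions are still one-way for quantum
algorithms. -/
theorem result {ι M κ : Type} {σ τ : ℕ → Type} [∀ k, Fintype (σ k)] [∀ k, Fintype (τ k)]
    [Finite κ] [Nonempty κ] (P : ∀ k, Protocol ι (σ k) (τ k) M κ) (n q : ℕ → ℕ)
    (hq : ∀ (k : ℕ) (t : List M) (a : κ), t.length = n k →
      asks ((P k).stepsA t ++ (P k).keyA t a) ≤ q k ∧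
      asks ((P k).stepsB t ++ (P k).keyB t a) ≤ q k)
    (hc : ∀ (k : ℕ) (h : ι → Bool) (t : List M) (a b : κ), t.length = n k → a ≠ b →
      (P k).prob h t a b = 0) :
    ∃ Eve : ℕ × List M → DTree ι κ,
      (∀ k t, (Eve (k, t)).depth ≤ q k ^ 3 * (q k + 1)) ∧
      (∀ (k : ℕ) (h : ι → Bool) (t : List M) (a b : κ), t.length = n k →
        (P k).prob h t a b ≠ 0 → (Eve (k, t)).eval h = a ∧ (Eve (k, t)).eval h = b) ∧
      OneWayDespite Eve (fun j => q j.1) := by
  obtain ⟨Eve, h1, h2, h3⟩ := key_agreement P n q hq hc
  exact ⟨Eve, fun k t => h1 (k, t), h2, h3⟩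

end Pool.Agent.Results.MP_5f4f03_lc.QuantumKeyAgreement
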